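import Mathlib
import Pool.Agent.V11306.SpMod

/-!
# Values of a quadratic-residue product at twelfth roots of unity: the prime `397`
-/

set_option autoImplicit false

namespace Pool.Agent.Results.MP_8a3680_nt.FailsAt397

open Finset

/-- `S_p(x)` is the product of the factors `x - exp (2 π i k² / p)`, `1 ≤ k ≤ (p - 1) / 2`. -/
noncomputable def S (p : ℕ) (x : ℂ) : ℂ :=
  ∏ k ∈ Icc 1 ((p - 1) / 2), (x - Complex.exp (2 * Real.pi * Complex.I * (k : ℂ) ^ 2 / p))

/-- `(x, y)` is the least solution in positive integers of `3 x² + 1 = p y²`. -/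
def IsLeastSolution (p : ℕ) (x y : ℕ) : Prop :=
  0 < x ∧ 0 < y ∧ 3 * x ^ 2 + 1 = p * y ^ 2 ∧
    ∀ x' y' : ℕ, 0 < x' → 0 < y' → 3 * x' ^ 2 + 1 = p * y' ^ 2 → x ≤ x' ∧ y ≤ y'

/-- `ξ a = exp (2 π i a / 12)` -/
noncomputable def ξ (a : ℤ) : ℂ := Complex.exp (2 * Real.pi * Complex.I * (a : ℂ) / 12)

lemma S_eq : S = V11306.SpMod.S := rfl

instance : Fact (Nat.Prime 14293) := ⟨by norm_num⟩

lemma prim : IsPrimitiveRoot ((216 : ℕ) : ZMod 14293) 4764 := by
  have h : orderOf ((216 : ℕ) : ZMod 14293) = 4764 := by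
    apply orderOf_eq_of_pow_and_pow_div_prime (by norm_num)
    · rw [← Nat.cast_pow]
      have : ((216 ^ 4764 : ℕ) : ZMod 14293) = ((1 : ℕ) : ZMod 14293) := by
        rw [ZMod.natCast_eq_natCast_iff']
        decide +kernel
      rw [this, Nat.cast_one]
    · intro q hq hd
      have hq' : q ∈ ({2, 3, 397} : Finset ℕ) := by
        have h0 : q ∣ 2 ^ 2 * (3 * 397) := by norm_num; exact hd
        simp only [Finset.mem_insert, Finset.mem_singleton]
        rcases (Nat.Prime.dvd_mul hq).mp h0 with h1 | h1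
        · left
          exact (Nat.prime_dvd_prime_iff_eq hq Nat.prime_two).mp (hq.dvd_of_dvd_pow h1)
        · right
          rcases (Nat.Prime.dvd_mul hq).mp h1 with h2 | h2
          · left; exact (Nat.prime_dvd_prime_iff_eq hq Nat.prime_three).mp h2
          · right; exact (Nat.prime_dvd_prime_iff_eq hq (by norm_num)).mp h2
      have hne : ∀ n : ℕ, 216 ^ n % 14293 ≠ 1 % 14293 → ((216 : ℕ) : ZMod 14293) ^ n ≠ 1 := by
        intro n hn h
        apply hn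
        rw [← Nat.cast_pow, ← Nat.cast_one, ZMod.natCast_eq_natCast_iff'] at h
        exact h
      simp only [Finset.mem_insert, Finset.mem_singleton] at hq'
      rcases hq' with rfl | rfl | rfl
      · exact hne _ (by decide +kernel)
      · exact hne _ (by decide +kernel)
      · exact hne _ (by decide +kernel)
  rw [← h]
  exact IsPrimitiveRoot.orderOf _

lemma least : IsLeastSolution 397 23 2 := by
  refine ⟨by norm_num, by norm_num, by norm_num, ?_⟩
  intro x y hx hy h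
  have hy2 : 2 ≤ y := by
    by_contra hcon
    have : y = 1 := by omega
    subst this
    have h3 : x ^ 2 = 132 := by omega
    have h4 : x ≤ 11 := by nlinarith
    interval_cases x <;> omega
  refine ⟨?_, hy2⟩
  by_contra hcon
  have h1 : x ≤ 22 := by omega
  nlinarith

lemma crit (e : ℕ) (he : e ≤ 4764)
    (hne : (((V11306.SpMod.P 14293 216 e 12 4764 ((397 - 1) / 2) *
      V11306.SpMod.Q 14293 216 (4764 - e) 12 471636 4764 ((397 - 1) / 2) : ℕ) : ZMod 14293)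
      - ((3175 : ℕ) : ZMod 14293)) ^ 2 ≠ ((10080624 : ℕ) : ZMod 14293)) {x : ℂ}
    (hx : x = Complex.exp (2 * Real.pi * Complex.I / (4764 : ℕ)) ^ e) :
    (‖S 397 x‖ ^ 2 - ((3175 : ℕ) : ℝ)) ^ 2 ≠ ((10080624 : ℕ) : ℝ) := by
  rw [S_eq]
  exact V11306.SpMod.norm_ne (p := 397) (m := 12) (N := 4764) (l := 14293) (g := 216)
    (c := 471636) (r := 99) (by norm_num) (by norm_num) (by norm_num) he (by norm_num)
    (by norm_num) prim hne hx

lemma h3 : Real.sqrt 3 ^ 2 = 3 := Real.sq_sqrt (by norm_num)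

lemma h397 : Real.sqrt 397 ^ 2 = 397 := Real.sq_sqrt (by norm_num)

lemma minus {u z : ℂ} (hu : ‖u‖ = 1)
    (h : z = u * (23 * (Real.sqrt 3 : ℂ) - 2 * (Real.sqrt 397 : ℂ))) :
    (‖z‖ ^ 2 - ((3175 : ℕ) : ℝ)) ^ 2 = ((10080624 : ℕ) : ℝ) := by
  have e : ‖z‖ ^ 2 = (23 * Real.sqrt 3 - 2 * Real.sqrt 397) ^ 2 := by
    rw [h, norm_mul, hu, one_mul]
    have : (23 * (Real.sqrt 3 : ℂ) - 2 * (Real.sqrt 397 : ℂ)) =
        ((23 * Real.sqrt 3 - 2 * Real.sqrt 397 : ℝ) : ℂ) := by push_cast; ring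
    rw [this, Complex.norm_real, Real.norm_eq_abs, sq_abs]
  rw [e]
  push_cast
  have : (23 * Real.sqrt 3 - 2 * Real.sqrt 397) ^ 2 = 3175 - 92 * (Real.sqrt 3 * Real.sqrt 397) := by
    linear_combination 529 * h3 + 4 * h397
  rw [this]
  linear_combination 8464 * (Real.sqrt 397) ^ 2 * h3 + 25392 * h397

lemma plus {u z : ℂ} (hu : ‖u‖ = 1)
    (h : z = u * (23 * (Real.sqrt 3 : ℂ) + 2 * (Real.sqrt 397 : ℂ))) :
    (‖z‖ ^ 2 - ((3175 : ℕ) : ℝ)) ^ 2 = ((10080624 : ℕ) : ℝ) := by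
  have e : ‖z‖ ^ 2 = (23 * Real.sqrt 3 + 2 * Real.sqrt 397) ^ 2 := by
    rw [h, norm_mul, hu, one_mul]
    have : (23 * (Real.sqrt 3 : ℂ) + 2 * (Real.sqrt 397 : ℂ)) =
        ((23 * Real.sqrt 3 + 2 * Real.sqrt 397 : ℝ) : ℂ) := by push_cast; ring
    rw [this, Complex.norm_real, Real.norm_eq_abs, sq_abs]
  rw [e]
  push_cast
  have : (23 * Real.sqrt 3 + 2 * Real.sqrt 397) ^ 2 = 3175 + 92 * (Real.sqrt 3 * Real.sqrt 397) := by
    linear_combination 529 * h3 + 4 * h397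
  rw [this]
  linear_combination 8464 * (Real.sqrt 397) ^ 2 * h3 + 25392 * h397

lemma ξ_eq (a e : ℕ) (n : ℤ) (b : ℤ) (h : (397 : ℤ) * b + 4764 * n = e) (_ : a = 0) :
    ξ b = Complex.exp (2 * Real.pi * Complex.I / (4764 : ℕ)) ^ e := by
  rw [ξ, ← Complex.exp_nat_mul, Complex.exp_eq_exp_iff_exists_int]
  refine ⟨-n, ?_⟩
  have h' : ((e : ℕ) : ℂ) = 397 * b + 4764 * n := by
    have := congrArg (Int.cast : ℤ → ℂ) h
    push_cast at this
    exact this.symm
  rw [h']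
  push_cast
  ring

/-- The prime `p = 397` satisfies `p ≡ 13 (mod 24)` and its least solution is `(23, 2)`, but
`S_p(exp (± 2 π i / 12))` is not of the form `u (23 √3 - 2 √p)`, and
`S_p(exp (± 2 π i 5 / 12))` is not of the form `u (23 √3 + 2 √p)`, with a complex number `u` of
absolute value `1`. -/
theorem result : Nat.Prime 397 ∧ 397 % 24 = 13 ∧ IsLeastSolution 397 23 2 ∧
    (∀ u : ℂ, ‖u‖ = 1 →
      S 397 (ξ 1) ≠ u * (23 * (Real.sqrt 3 : ℂ) - 2 * (Real.sqrt 397 : ℂ)) ∧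
      S 397 (ξ (-1)) ≠ u * (23 * (Real.sqrt 3 : ℂ) - 2 * (Real.sqrt 397 : ℂ)) ∧
      S 397 (ξ 5) ≠ u * (23 * (Real.sqrt 3 : ℂ) + 2 * (Real.sqrt 397 : ℂ)) ∧
      S 397 (ξ (-5)) ≠ u * (23 * (Real.sqrt 3 : ℂ) + 2 * (Real.sqrt 397 : ℂ))) := by
  refine ⟨by norm_num, by norm_num, least, ?_⟩
  intro u hu
  refine ⟨fun h => ?_, fun h => ?_, fun h => ?_, fun h => ?_⟩
  · exact crit 397 (by norm_num) (by decide +kernel) (ξ_eq 0 397 0 1 (by norm_num) rfl)
      (minus hu h)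
  · exact crit 4367 (by norm_num) (by decide +kernel) (ξ_eq 0 4367 1 (-1) (by norm_num) rfl)
      (minus hu h)
  · exact crit 1985 (by norm_num) (by decide +kernel) (ξ_eq 0 1985 0 5 (by norm_num) rfl)
      (plus hu h)
  · exact crit 2779 (by norm_num) (by decide +kernel) (ξ_eq 0 2779 1 (-5) (by norm_num) rfl)
      (plus hu h)

end Pool.Agent.Results.MP_8a3680_nt.FailsAt397
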